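import Pool.Agent.H87.IS.Stmts

/-!
# Row ZTR of board `isq`: transport of the local series by a formal change of coordinates
-/

set_option autoImplicit false

namespace Pool.Agent.H87.IS

open MvPolynomial Pool.Agent.H39.MonoR Pool.Agent.H75.Mono Pool.Agent.H87.QF

namespace ZTRAux

section Alg

variable {k : Type} [Field k] {σ : Type}

/-- truncation of a substitution -/
theorem coeff_aeval_trunc (M : ℕ) (φ : σ → MvPowerSeries σ k) (φ' : σ → MvPolynomial σ k)
    (h : ∀ i, ∀ m : σ →₀ ℕ, m.degree < M →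
      MvPolynomial.coeff m (φ' i) = MvPowerSeries.coeff m (φ i)) (p : MvPolynomial σ k) :
    ∀ m : σ →₀ ℕ, m.degree < M →
      MvPolynomial.coeff m (aeval φ' p) = MvPowerSeries.coeff m (aeval φ p) := by
  classical
  induction p using MvPolynomial.induction_on with
  | C c =>
    intro m _
    rw [aeval_C, aeval_C, MvPolynomial.algebraMap_eq, MvPowerSeries.algebraMap_apply,
      MvPolynomial.coeff_C, MvPowerSeries.coeff_C]
    simp [eq_comm]
  | add p q hp hq =>
    intro m hm
    rw [map_add, map_add, MvPolynomial.coeff_add, map_add, hp m hm, hq m hm]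
  | mul_X p i hp =>
    intro m hm
    rw [map_mul, map_mul, aeval_X, aeval_X, MvPolynomial.coeff_mul, MvPowerSeries.coeff_mul]
    refine Finset.sum_congr rfl fun q hq => ?_
    rw [Finset.HasAntidiagonal.mem_antidiagonal] at hq
    have h2 : q.1.degree + q.2.degree = m.degree := by rw [← hq, map_add]
    rw [hp q.1 (by omega), h i q.2 (by omega)]

end Alg

section Arc

variable {k : Type} [Field k] [Algebra k ℂ] {σ : Type}

/-- polynomials of large order on arcs through the origin -/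
theorem dvd_of_ord (M : ℕ) (p : MvPolynomial σ k) (hp : Ord M p) (a : σ → PowerSeries ℂ)
    (ha : ∀ j, PowerSeries.constantCoeff (a j) = 0) :
    (PowerSeries.X : PowerSeries ℂ) ^ M ∣ aeval a p := by
  classical
  rw [p.as_sum, map_sum]
  refine Finset.dvd_sum fun m hm => ?_
  rw [aeval_monomial]
  refine Dvd.dvd.mul_left ?_ _
  have hdeg : M ≤ m.degree := by
    by_contra hcon
    push Not at hcon
    exact (MvPolynomial.mem_support_iff.1 hm) (hp m hcon)
  refine (pow_dvd_pow _ hdeg).trans ?_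
  have h1 : (PowerSeries.X : PowerSeries ℂ) ^ m.degree =
      ∏ i ∈ m.support, PowerSeries.X ^ (m i) := by
    rw [Finset.prod_pow_eq_pow_sum]
    rfl
  rw [h1]
  unfold Finsupp.prod
  refine Finset.prod_dvd_prod_of_dvd _ _ fun i _ => ?_
  exact pow_dvd_pow_of_dvd (PowerSeries.X_dvd_iff.2 (ha i)) _

theorem const_aeval (a : σ → PowerSeries ℂ) (ha : ∀ j, PowerSeries.constantCoeff (a j) = 0)
    (p : MvPolynomial σ k) :
    PowerSeries.constantCoeff (aeval a p) = algebraMap k ℂ (MvPolynomial.coeff 0 p) := by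
  rw [constantCoeff_aeval, funext ha]
  rw [aeval_zero']
  rfl

/-- linear term of a change in order `l` -/
theorem vec [Fintype σ] (l : ℕ) (hl : 1 ≤ l) (a : σ → PowerSeries ℂ)
    (ha : ∀ j, PowerSeries.constantCoeff (a j) = 0) (δ : σ → ℂ) (p : MvPolynomial σ k) :
    (PowerSeries.X : PowerSeries ℂ) ^ (l + 1) ∣
      aeval (fun j => a j + PowerSeries.X ^ l * PowerSeries.C (δ j)) p - aeval a p -
        PowerSeries.X ^ l * PowerSeries.C
          (∑ j, δ j * algebraMap k ℂ (MvPolynomial.coeff (Finsupp.single j 1) p)) := by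
  classical
  induction p using MvPolynomial.induction_on with
  | C c =>
    have h1 : ∀ j : σ, MvPolynomial.coeff (Finsupp.single j 1) (C c : MvPolynomial σ k) = 0 := by
      intro j
      rw [MvPolynomial.coeff_C, if_neg]
      intro h
      have := DFunLike.congr_fun h j
      simp at this
    rw [aeval_C, aeval_C]
    simp only [h1, map_zero, mul_zero, Finset.sum_const_zero, sub_self]
    exact dvd_zero _
  | add p q hp hq =>
    have h1 : ∑ j, δ j * algebraMap k ℂ (MvPolynomial.coeff (Finsupp.single j 1) (p + q)) =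
        ∑ j, δ j * algebraMap k ℂ (MvPolynomial.coeff (Finsupp.single j 1) p) +
        ∑ j, δ j * algebraMap k ℂ (MvPolynomial.coeff (Finsupp.single j 1) q) := by
      rw [← Finset.sum_add_distrib]
      refine Finset.sum_congr rfl fun j _ => ?_
      rw [MvPolynomial.coeff_add, map_add, mul_add]
    rw [h1, map_add, map_add, map_add]
    have h2 := dvd_add hp hq
    convert h2 using 1
    ring
  | mul_X p i hp =>
    have h1 : ∑ j, δ j * algebraMap k ℂ
        (MvPolynomial.coeff (Finsupp.single j 1) (p * X i)) =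
        δ i * algebraMap k ℂ (MvPolynomial.coeff 0 p) := by
      rw [Finset.sum_eq_single i]
      · rw [MvPolynomial.coeff_mul_X', if_pos (by simp), tsub_self]
      · intro j _ hj
        rw [MvPolynomial.coeff_mul_X', if_neg, map_zero, mul_zero]
        rw [Finsupp.mem_support_iff, Finsupp.single_apply, if_neg hj]
        simp
      · intro h
        exact absurd (Finset.mem_univ i) h
    rw [h1, map_mul, map_mul, aeval_X, aeval_X]
    set A := aeval a p with hA
    set B := aeval (fun j => a j + PowerSeries.X ^ l * PowerSeries.C (δ j)) p with hB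
    have hAB : (PowerSeries.X : PowerSeries ℂ) ^ l ∣ B - A := by
      have h2 := (pow_dvd_pow (PowerSeries.X : PowerSeries ℂ) (Nat.le_succ l)).trans hp
      have h3 := dvd_add h2 (Dvd.intro (PowerSeries.C
          (∑ j, δ j * algebraMap k ℂ (MvPolynomial.coeff (Finsupp.single j 1) p)))
          (rfl : (PowerSeries.X : PowerSeries ℂ) ^ l * _ = _))
      rwa [sub_add_cancel] at h3
    have hb : (PowerSeries.X : PowerSeries ℂ) ∣ a i + PowerSeries.X ^ l * PowerSeries.C (δ i) := by
      refine dvd_add (PowerSeries.X_dvd_iff.2 (ha i)) ?_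
      exact (dvd_pow_self _ (by omega)).mul_right _
    have hc : (PowerSeries.X : PowerSeries ℂ) ∣ A * PowerSeries.C (δ i) -
        PowerSeries.C (δ i * algebraMap k ℂ (MvPolynomial.coeff 0 p)) := by
      rw [PowerSeries.X_dvd_iff, map_sub, map_mul, PowerSeries.constantCoeff_C,
        PowerSeries.constantCoeff_C, hA, const_aeval a ha p]
      ring
    have h4 : (PowerSeries.X : PowerSeries ℂ) ^ (l + 1) ∣
        (B - A) * (a i + PowerSeries.X ^ l * PowerSeries.C (δ i)) := by
      rw [pow_succ]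
      exact mul_dvd_mul hAB hb
    have h5 : (PowerSeries.X : PowerSeries ℂ) ^ (l + 1) ∣
        PowerSeries.X ^ l * (A * PowerSeries.C (δ i) -
        PowerSeries.C (δ i * algebraMap k ℂ (MvPolynomial.coeff 0 p))) := by
      rw [pow_succ]
      exact mul_dvd_mul dvd_rfl hc
    have h6 := dvd_add h4 h5
    convert h6 using 1
    ring

/-- the map on truncated arcs induced by a homomorphism of polynomial rings -/
noncomputable def amap (N : ℕ) (e : MvPolynomial σ k →ₐ[k] MvPolynomial σ k)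
    (φ : σ × Fin N → ℂ) : σ × Fin N → ℂ :=
  fun q => PowerSeries.coeff (q.2 : ℕ) (arcEval k φ (e (X q.1)))

theorem coeff_amap {N : ℕ} (e : MvPolynomial σ k →ₐ[k] MvPolynomial σ k)
    (φ : σ × Fin N → ℂ) (g : MvPolynomial σ k) {l : ℕ} (hl : l < N) :
    PowerSeries.coeff l (arcEval k (amap N e φ) g) =
      PowerSeries.coeff l (arcEval k φ (e g)) := by
  have h1 : arcEval k φ (e g) = aeval (fun j => arcEval k φ (e (X j))) g := by
    have h : ((aeval (arc φ) : MvPolynomial σ k →ₐ[k] PowerSeries ℂ).comp e) =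
        aeval (fun j => arcEval k φ (e (X j))) := by
      refine MvPolynomial.algHom_ext fun j => ?_
      rw [aeval_X]
      rfl
    have h' := DFunLike.congr_fun h g
    exact h'
  have h2 : PowerSeries.X ^ N ∣ arcEval k (amap N e φ) g - arcEval k φ (e g) := by
    rw [h1]
    refine arcEval_congr g _ _ N fun j => ?_
    rw [PowerSeries.X_pow_dvd_iff]
    intro l hl
    rw [map_sub, coeff_arc, dif_pos hl]
    exact sub_self _
  have h := (PowerSeries.X_pow_dvd_iff.1 h2) l hl
  rw [map_sub, sub_eq_zero] at h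
  exact h

theorem arc_const {d : ℕ} (ψ : σ × Fin (d + 1) → ℂ) (h0 : ∀ j, ψ (j, 0) = 0) (j : σ) :
    PowerSeries.constantCoeff (arc ψ j) = 0 := by
  rw [← PowerSeries.coeff_zero_eq_constantCoeff_apply, coeff_arc, dif_pos (Nat.succ_pos d)]
  exact h0 j

/-- change of the arc in order `l` -/
theorem step [Fintype σ] {d : ℕ} (l : ℕ) (hl : 1 ≤ l) (hld : l < d + 1)
    (ψ ψ' : σ × Fin (d + 1) → ℂ) (h0 : ∀ j, ψ (j, 0) = 0)
    (hagree : ∀ j (m : Fin (d + 1)), (m : ℕ) < l → ψ' (j, m) = ψ (j, m))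
    (p : MvPolynomial σ k) :
    PowerSeries.coeff l (arcEval k ψ' p) = PowerSeries.coeff l (arcEval k ψ p) +
      ∑ j, (ψ' (j, ⟨l, hld⟩) - ψ (j, ⟨l, hld⟩)) *
        algebraMap k ℂ (MvPolynomial.coeff (Finsupp.single j 1) p) := by
  have h1 := arcEval_congr p (arc ψ')
    (fun j => arc ψ j + PowerSeries.X ^ l * PowerSeries.C (ψ' (j, ⟨l, hld⟩) - ψ (j, ⟨l, hld⟩)))
    (l + 1) (fun j => by
      rw [PowerSeries.X_pow_dvd_iff]
      intro m hm
      rw [map_sub, map_add, coeff_arc, coeff_arc, dif_pos (by omega : m < d + 1),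
        dif_pos (by omega : m < d + 1), PowerSeries.coeff_X_pow_mul']
      by_cases hml : m = l
      · subst hml
        rw [if_pos le_rfl, Nat.sub_self, PowerSeries.coeff_zero_C]
        ring
      · rw [if_neg (by omega), hagree j ⟨m, by omega⟩ (by simp only; omega)]
        ring)
  have h2 := vec l hl (arc ψ) (arc_const ψ h0)
    (fun j => ψ' (j, ⟨l, hld⟩) - ψ (j, ⟨l, hld⟩)) p
  have h3 := dvd_add h1 h2
  rw [PowerSeries.X_pow_dvd_iff] at h3
  have h4 := h3 l (Nat.lt_succ_self l)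
  unfold arcEval
  rw [map_add, map_sub, map_sub, map_sub, PowerSeries.coeff_X_pow_mul', if_pos le_rfl,
    Nat.sub_self, PowerSeries.coeff_zero_C] at h4
  linear_combination h4

end Arc

end ZTRAux

open ZTRAux

theorem ZTR : ZTRStmt := by
  classical
  intro k _ _ σ _ _ f F x0 hFE d t hd
  obtain ⟨φ, hφ0, hdet, hφf⟩ := hFE
  -- the polynomial change of coordinates
  obtain ⟨φ', hφ'⟩ : ∃ φ' : σ → MvPolynomial σ k, ∀ i, ∀ m : σ →₀ ℕ, m.degree < d + 1 →
      MvPolynomial.coeff m (φ' i) = MvPowerSeries.coeff m (φ i) :=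
    ⟨fun i => MvPowerSeries.truncTotal (d + 1) (φ i), fun i m hm =>
      MvPowerSeries.coeff_truncTotal _ hm⟩
  have hconst : ∀ i, MvPolynomial.coeff 0 (φ' i) = x0 i := by
    intro i
    rw [hφ' i 0 (by simp), ← hφ0 i]
    exact MvPowerSeries.coeff_zero_eq_constantCoeff_apply _
  have hlin : ∀ i j, MvPolynomial.coeff (Finsupp.single j 1) (φ' i) =
      MvPowerSeries.coeff (Finsupp.single j 1) (φ i) := by
    intro i j
    apply hφ'
    rw [Finsupp.degree_single]
    omega
  have hord : Ord (d + 1) (aeval φ' f - F) := by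
    intro m hm
    rw [MvPolynomial.coeff_sub, coeff_aeval_trunc (d + 1) φ φ' hφ' f m hm, hφf,
      MvPolynomial.coeff_coe, sub_self]
  -- the jacobian matrix over the complex numbers
  set J : Matrix σ σ ℂ := (Matrix.of fun i j =>
    MvPowerSeries.coeff (Finsupp.single j 1) (φ i)).map (algebraMap k ℂ) with hJ
  have hJdet : J.det ≠ 0 := by
    rw [hJ, ← RingHom.mapMatrix_apply, ← RingHom.map_det]
    intro h
    exact hdet ((algebraMap k ℂ).injective (by rw [h, map_zero]))
  have hJapp : ∀ i j, J i j = algebraMap k ℂ (MvPolynomial.coeff (Finsupp.single j 1) (φ' i)) := by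
    intro i j
    rw [hlin]
    rfl
  -- the map
  let e : MvPolynomial σ k →ₐ[k] MvPolynomial σ k := aeval φ'
  have heX : ∀ i, e (X i) = φ' i := fun i => aeval_X _ _
  let T : (σ × Fin (d + 1) → ℂ) → (σ × Fin (d + 1) → ℂ) := amap (d + 1) e
  have hTapp : ∀ ψ q, T ψ q = PowerSeries.coeff (q.2 : ℕ) (arcEval k ψ (φ' q.1)) := by
    intro ψ q
    show PowerSeries.coeff (q.2 : ℕ) (arcEval k ψ (e (X q.1))) = _
    rw [heX]
  have hT0 : ∀ ψ : σ × Fin (d + 1) → ℂ, (∀ j, ψ (j, 0) = 0) → ∀ i,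
      T ψ (i, 0) = algebraMap k ℂ (x0 i) := by
    intro ψ h0 i
    rw [hTapp]
    simp only [Fin.val_zero]
    rw [PowerSeries.coeff_zero_eq_constantCoeff_apply, arcEval,
      const_aeval (arc ψ) (arc_const ψ h0), hconst]
  have hhit : ∀ (ψ : σ × Fin (d + 1) → ℂ) (c : ℂ), (∀ j, ψ (j, 0) = 0) →
      (Hit f d (T ψ) c ↔ Hit F d ψ c) := by
    intro ψ c h0
    have h1 : ∀ l, l ≤ d → PowerSeries.coeff l (arcEval k (T ψ) f) =
        PowerSeries.coeff l (arcEval k ψ F) := by
      intro l hl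
      rw [coeff_amap e ψ f (by omega : l < d + 1)]
      have h2 := dvd_of_ord (d + 1) _ hord (arc ψ) (arc_const ψ h0)
      rw [PowerSeries.X_pow_dvd_iff] at h2
      have h3 := h2 l (by omega)
      rw [map_sub, map_sub, sub_eq_zero] at h3
      exact h3
    unfold Hit
    constructor
    · intro h l hl
      rw [← h1 l hl]
      exact h l hl
    · intro h l hl
      rw [h1 l hl]
      exact h l hl
  -- levels
  have hlow : ∀ (n : ℕ) (ψ ψ' : σ × Fin (d + 1) → ℂ),
      (∀ j (m : Fin (d + 1)), (m : ℕ) < n → ψ' (j, m) = ψ (j, m)) →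
      ∀ i (m : Fin (d + 1)), (m : ℕ) < n → T ψ' (i, m) = T ψ (i, m) := by
    intro n ψ ψ' h i m hm
    rw [hTapp, hTapp]
    refine coeff_arcEval_congr (φ' i) ψ' ψ n (fun j l hl => ?_) hm
    rw [coeff_arc, coeff_arc]
    by_cases hld : l < d + 1
    · rw [dif_pos hld, dif_pos hld]
      exact h j ⟨l, hld⟩ hl
    · rw [dif_neg hld, dif_neg hld]
  have hlev : ∀ (n : ℕ) (hn : 1 ≤ n) (hnd : n < d + 1) (ψ ψ' : σ × Fin (d + 1) → ℂ),
      (∀ j, ψ (j, 0) = 0) → (∀ j (m : Fin (d + 1)), (m : ℕ) < n → ψ' (j, m) = ψ (j, m)) →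
      ∀ i, T ψ' (i, ⟨n, hnd⟩) = T ψ (i, ⟨n, hnd⟩) +
        (J.mulVec fun j => ψ' (j, ⟨n, hnd⟩) - ψ (j, ⟨n, hnd⟩)) i := by
    intro n hn hnd ψ ψ' h0 h i
    rw [hTapp, hTapp]
    simp only
    rw [step n hn hnd ψ ψ' h0 h (φ' i)]
    congr 1
    simp only [Matrix.mulVec, dotProduct]
    refine Finset.sum_congr rfl fun j _ => ?_
    rw [hJapp, mul_comm]
  have hinj : ∀ ψ ψ' : σ × Fin (d + 1) → ℂ, (∀ j, ψ (j, 0) = 0) → (∀ j, ψ' (j, 0) = 0) →
      T ψ' = T ψ → ψ' = ψ := by
    intro ψ ψ' h0 h0' hTT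
    have hall : ∀ n : ℕ, ∀ j (m : Fin (d + 1)), (m : ℕ) < n → ψ' (j, m) = ψ (j, m) := by
      intro n
      induction n with
      | zero =>
        intro j m hm
        exact absurd hm (Nat.not_lt_zero _)
      | succ n ih =>
        intro j m hm
        by_cases hmn : (m : ℕ) < n
        · exact ih j m hmn
        · have hmn' : (m : ℕ) = n := by omega
          by_cases hn0 : n = 0
          · have : m = 0 := Fin.ext (by rw [hmn', hn0]; rfl)
            rw [this, h0, h0']
          · have hnd : n < d + 1 := by rw [← hmn']; exact m.2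
            have h1 := hlev n (by omega) hnd ψ ψ' h0 ih
            have h2 : J.mulVec (fun j => ψ' (j, ⟨n, hnd⟩) - ψ (j, ⟨n, hnd⟩)) = 0 := by
              funext i
              have h3 := h1 i
              rw [hTT] at h3
              have h4 : (J.mulVec fun j => ψ' (j, ⟨n, hnd⟩) - ψ (j, ⟨n, hnd⟩)) i = 0 := by
                linear_combination -h3
              exact h4
            have h5 := Matrix.eq_zero_of_mulVec_eq_zero hJdet h2
            have h6 := congrFun h5 j
            simp only [Pi.zero_apply] at h6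
            have hm' : m = ⟨n, hnd⟩ := Fin.ext hmn'
            rw [hm']
            exact sub_eq_zero.1 h6
    funext q
    exact hall (d + 1) q.1 q.2 q.2.2
  have hsurj : ∀ χ : σ × Fin (d + 1) → ℂ, (∀ i, χ (i, 0) = algebraMap k ℂ (x0 i)) →
      ∃ ψ : σ × Fin (d + 1) → ℂ, (∀ j, ψ (j, 0) = 0) ∧ T ψ = χ := by
    intro χ hχ
    have hall : ∀ n : ℕ, n ≤ d → ∃ ψ : σ × Fin (d + 1) → ℂ, (∀ j, ψ (j, 0) = 0) ∧
        ∀ i (m : Fin (d + 1)), (m : ℕ) < n + 1 → T ψ (i, m) = χ (i, m) := by
      intro n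
      induction n with
      | zero =>
        intro _
        refine ⟨fun _ => 0, fun _ => rfl, fun i m hm => ?_⟩
        have : m = 0 := Fin.ext (by simp only [Fin.val_zero]; omega)
        rw [this, hT0 _ (fun _ => rfl), hχ]
      | succ n ih =>
        intro hnd
        obtain ⟨ψ, h0, hψ⟩ := ih (by omega)
        have hnd' : n + 1 < d + 1 := by omega
        let δ : σ → ℂ := J⁻¹.mulVec fun i => χ (i, ⟨n + 1, hnd'⟩) - T ψ (i, ⟨n + 1, hnd'⟩)
        let ψ' : σ × Fin (d + 1) → ℂ := fun q => if (q.2 : ℕ) = n + 1 then ψ q + δ q.1 else ψ q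
        have hag : ∀ j (m : Fin (d + 1)), (m : ℕ) < n + 1 → ψ' (j, m) = ψ (j, m) := by
          intro j m hm
          show (if (m : ℕ) = n + 1 then ψ (j, m) + δ j else ψ (j, m)) = ψ (j, m)
          rw [if_neg (by omega)]
        refine ⟨ψ', fun j => ?_, fun i m hm => ?_⟩
        · rw [hag j 0 (by simp), h0]
        · by_cases hmn : (m : ℕ) < n + 1
          · rw [hlow (n + 1) ψ ψ' hag i m hmn, hψ i m hmn]
          · have hm' : m = ⟨n + 1, hnd'⟩ := Fin.ext (by simp only; omega)
            rw [hm', hlev (n + 1) (by omega) hnd' ψ ψ' h0 hag i]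
            have h7 : (fun j => ψ' (j, ⟨n + 1, hnd'⟩) - ψ (j, ⟨n + 1, hnd'⟩)) = δ := by
              funext j
              show (if n + 1 = n + 1 then ψ (j, ⟨n + 1, hnd'⟩) + δ j
                else ψ (j, ⟨n + 1, hnd'⟩)) - ψ (j, ⟨n + 1, hnd'⟩) = δ j
              rw [if_pos rfl]
              ring
            rw [h7]
            have h8 : J.mulVec δ = fun i => χ (i, ⟨n + 1, hnd'⟩) - T ψ (i, ⟨n + 1, hnd'⟩) := by
              show J.mulVec (J⁻¹.mulVec _) = _
              rw [Matrix.mulVec_mulVec, Matrix.mul_nonsing_inv _ (isUnit_iff_ne_zero.2 hJdet),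
                Matrix.one_mulVec]
            rw [h8]
            ring
    obtain ⟨ψ, h0, hψ⟩ := hall d le_rfl
    exact ⟨ψ, h0, funext fun q => hψ q.1 q.2 q.2.2⟩
  -- the classes
  have hcons : ∀ (g : MvPolynomial σ k) (y0 : σ → k), ICons k
      {x : (σ × Fin (d + 1) → ℂ) × t.E | x.2 ∈ t.W ∧
        (∀ i, org x.1 i = algebraMap k ℂ (y0 i)) ∧ Hit g d x.1 (t.c x.2)} := by
    intro g y0
    refine (t.cW.mem PMap.snd).and (ICons.and (ICons.forall_fin fun i => ?_)
      (ICons.hit d g PMap.fst (t.pf.comp PMap.snd)))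
    refine ICons.eq ?_ (PFun.const (y0 i))
    exact Pool.Agent.H75.Mono.PFun.comp (k := k) (f := fun ψ : σ × Fin (d + 1) → ℂ => ψ (i, 0))
      (Pool.Agent.H75.Mono.PFun.apply (k := k) ((i, 0) : σ × Fin (d + 1))) PMap.fst
  have hPT : PMap k (fun x : (σ × Fin (d + 1) → ℂ) × t.E => (T x.1, x.2)) :=
    PMap.prodMk (PMap.pi fun q => PFun.coeff_arcEval (q.2 : ℕ) (e (X q.1)) PMap.fst) PMap.snd
  unfold lz
  congr 1
  refine (mo_bij (hcons F 0) (hcons f x0) hPT ⟨?_, ?_, ?_⟩).symm
  · rintro ⟨ψ, w⟩ ⟨hw, ho, hh⟩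
    simp only at hw ho hh
    have h0 : ∀ j, ψ (j, 0) = 0 := by
      intro j
      have := ho j
      rw [Pi.zero_apply, map_zero] at this
      exact this
    exact ⟨hw, hT0 ψ h0, (hhit ψ _ h0).2 hh⟩
  · rintro ⟨ψ, w⟩ ⟨_, ho, _⟩ ⟨ψ', w'⟩ ⟨_, ho', _⟩ heq
    simp only at ho ho'
    have h0 : ∀ j, ψ (j, 0) = 0 := by
      intro j
      have := ho j
      rw [Pi.zero_apply, map_zero] at this
      exact this
    have h0' : ∀ j, ψ' (j, 0) = 0 := by
      intro j
      have := ho' j
      rw [Pi.zero_apply, map_zero] at this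
      exact this
    have h1 := (Prod.mk.injEq _ _ _ _).mp heq
    rw [hinj ψ' ψ h0' h0 h1.1]
    exact Prod.ext rfl h1.2
  · rintro ⟨χ, w⟩ ⟨hw, ho, hh⟩
    simp only at hw ho hh
    obtain ⟨ψ, h0, hψ⟩ := hsurj χ (fun i => ho i)
    refine ⟨(ψ, w), ⟨hw, fun i => ?_, ?_⟩, ?_⟩
    · rw [Pi.zero_apply, map_zero]
      exact h0 i
    · refine (hhit ψ _ h0).1 ?_
      rw [hψ]
      exact hh
    · show (T ψ, w) = (χ, w)
      rw [hψ]

end Pool.Agent.H87.IS
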